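import Pool.Agent.helper80.SV.Spec

/-!
# Project sv:, module DFM: the deformation property of the interpolation problems
-/

set_option autoImplicit false
set_option linter.unusedSectionVars false

namespace Pool.Agent.SV

open MvPolynomial Module

section

variable {ι κ : Type} [Fintype ι] [DecidableEq ι] [Fintype κ] [DecidableEq κ]

theorem DFM_hpt (c : ι → κ) (A : Finset ι) (L w x : ι → ℂ) (i : ι) :
    PolyFun (fun t => hpt c A L w t x i) := by
  unfold hpt
  have h1 : PolyFun (fun t => 1 - t + t * Lval c A L w (c i)) :=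
    ((PolyFun.const 1).sub PolyFun.id).add (PolyFun.id.mul (PolyFun.const _))
  by_cases h : i ∈ A
  · simp only [h, if_true]
    exact (h1.mul (PolyFun.const _)).sub ((PolyFun.id.mul (PolyFun.const _)).mul (PolyFun.const _))
  · simp only [h, if_false]
    exact ((((PolyFun.const 1).sub PolyFun.id)).mul h1).mul (PolyFun.const _)

theorem DFM_sub (c : ι → κ) (A : Finset ι) (L w : ι → ℂ) (y : ι → ℂ) (i : ι) :
    PolyFun (fun t => eval y (hsub c A L w t i)) ∧
      ∀ j, PolyFun (fun t => eval y (pderiv j (hsub c A L w t i))) := by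
  unfold hsub
  by_cases h : i ∈ A
  · simp only [h, if_true]
    refine ⟨?_, fun j => ?_⟩
    · have e : (fun t : ℂ => eval y (C (1 - t) * X i + C (t * w i) *
          ∑ j ∈ A.filter (fun j => c j = c i), C (L j) * X j)) =
          fun t => (1 - t) * y i + (t * w i) *
            eval y (∑ j ∈ A.filter (fun j => c j = c i), C (L j) * X j) := by
        funext t
        rw [map_add, map_mul, map_mul, eval_C, eval_C, eval_X]
      rw [e]
      exact ((((PolyFun.const 1).sub PolyFun.id)).mul (PolyFun.const _)).add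
        ((PolyFun.id.mul (PolyFun.const _)).mul (PolyFun.const _))
    · have e : (fun t : ℂ => eval y (pderiv j (C (1 - t) * X i + C (t * w i) *
          ∑ j ∈ A.filter (fun j => c j = c i), C (L j) * X j))) =
          fun t => (1 - t) * eval y (pderiv j (X i : MvPolynomial ι ℂ)) + (t * w i) *
            eval y (pderiv j (∑ j ∈ A.filter (fun j => c j = c i), C (L j) * X j)) := by
        funext t
        rw [map_add, pderiv_C_mul, pderiv_C_mul, map_add, map_mul, map_mul, eval_C, eval_C]
      rw [e]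
      exact ((((PolyFun.const 1).sub PolyFun.id)).mul (PolyFun.const _)).add
        ((PolyFun.id.mul (PolyFun.const _)).mul (PolyFun.const _))
  · simp only [h, if_false]
    exact ⟨PolyFun.const _, fun j => PolyFun.const _⟩

theorem DFM_bind (c : ι → κ) (A : Finset ι) (L w : ι → ℂ) (y : ι → ℂ) (f : MvPolynomial ι ℂ) :
    PolyFun (fun t => eval y (bind₁ (hsub c A L w t) f)) ∧
      ∀ j, PolyFun (fun t => eval y (pderiv j (bind₁ (hsub c A L w t) f))) := by
  induction f using MvPolynomial.induction_on with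
  | C a =>
    simp only [bind₁_C_right, pderiv_C, map_zero]
    exact ⟨PolyFun.const _, fun j => PolyFun.const _⟩
  | add p q hp hq =>
    simp only [map_add]
    exact ⟨hp.1.add hq.1, fun j => (hp.2 j).add (hq.2 j)⟩
  | mul_X p i hp =>
    obtain ⟨h1, h2⟩ := DFM_sub c A L w y i
    simp only [map_mul, bind₁_X_right, pderiv_mul, map_add]
    exact ⟨hp.1.mul h1, fun j => ((hp.2 j).mul h1).add (hp.1.mul (h2 j))⟩

/-- The core of the construction. -/
theorem DFM_core (hPLY : PLY_stmt) (hHSB : HSB_stmt) (hHPT : HPT_stmt) (hHON : HON_stmt)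
    (hSPN : SPN_stmt) (hCUT : CUT_stmt) (c : ι → κ) (A B : Finset ι) (d : κ → ℕ) (hAB : A ⊆ B)
    (f : ↥(Sec c B d)) (hf : ∃ w : ι → ℂ, eval (cut A w) (f : MvPolynomial ι ℂ) ≠ 0)
    (x₀ : ι → ℂ) (l : (ι → ℂ) →ₗ[ℂ] ℂ)
    (hg : ∃ g : ↥(Sec c B d), l (gradL A (cut A x₀) (g : MvPolynomial ι ℂ)) ≠ 0) :
    ∃ (α : ℂ → (ι → ℂ) → (ι → ℂ)) (H : ℂ → ↥(Sec c B d) → ↥(Sec c B d)),
      (∀ x, α 0 x = x) ∧
      (∀ (x : ι → ℂ) (g : MvPolynomial ι ℂ), PolyFun (fun t => eval (α t x) g)) ∧
      (∀ (x : ι → ℂ) (g : MvPolynomial ι ℂ), PolyFun (fun t => eval (cut A (α t x)) g)) ∧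
      (∀ (x : ι → ℂ) (j : ι),
        PolyFun (fun t => gradL A (cut A x) (H t f : MvPolynomial ι ℂ) j)) ∧
      (∀ (x : ι → ℂ) (t : ℂ), gradL B x (f : MvPolynomial ι ℂ) = 0 →
        gradL B (α t x) (H t f : MvPolynomial ι ℂ) = 0) ∧
      (∀ (x : ι → ℂ) (t : ℂ), gradL A (cut A x) (f : MvPolynomial ι ℂ) = 0 →
        gradL A (cut A (α t x)) (H t f : MvPolynomial ι ℂ) = 0) ∧
      l (gradL A (cut A x₀) (H 1 f : MvPolynomial ι ℂ)) ≠ 0 := by
  obtain ⟨w, hw⟩ := hf
  obtain ⟨g, hg⟩ := hg
  obtain ⟨L, hL⟩ : ∃ L : ι → ℂ, l (gradL A (cut A x₀) (Lprod c A d L)) ≠ 0 := by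
    by_contra hcon
    push Not at hcon
    obtain ⟨g', hg'1, -, hg'2⟩ := (hCUT c A B d hAB).2 g g.2
    have h1 := hSPN c A d (l ∘ₗ gradL A (cut A x₀)) hcon g' hg'1
    apply hg
    rw [← hg'2]
    exact h1
  refine ⟨fun t => hpt c A L w t,
    fun t f' => ⟨bind₁ (hsub c A L w t) (f' : MvPolynomial ι ℂ),
      hHSB c A B d hAB L w t _ f'.2⟩, ?_, ?_, ?_, ?_, ?_, ?_, ?_⟩
  · intro x
    exact (hHPT c A B d hAB L w 0 _ f.2 x).2.2
  · intro x g
    exact (hPLY (ι := ι) (κ := κ)).1 (fun i t => hpt c A L w t x i)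
      (fun i => DFM_hpt c A L w x i) g
  · intro x g
    refine (hPLY (ι := ι) (κ := κ)).1 (fun i t => cut A (hpt c A L w t x) i) (fun i => ?_) g
    unfold cut
    by_cases h : i ∈ A
    · simp only [h, if_true]
      exact DFM_hpt c A L w x i
    · simp only [h, if_false]
      exact PolyFun.const _
  · intro x j
    simp only [gradL_apply]
    by_cases h : j ∈ A
    · simp only [h, if_true]
      exact (DFM_bind c A L w (cut A x) f).2 j
    · simp only [h, if_false]
      exact PolyFun.const _
  · intro x t h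
    exact (hHPT c A B d hAB L w t _ f.2 x).1 h
  · intro x t h
    exact (hHPT c A B d hAB L w t _ f.2 x).2.1 h
  · show l (gradL A (cut A x₀) (bind₁ (hsub c A L w 1) (f : MvPolynomial ι ℂ))) ≠ 0
    rw [hHON c A B d hAB L w f f.2 x₀, map_smul]
    exact smul_ne_zero hw hL

end

/-- **DFM** -/
theorem DFM (hPLY : PLY_stmt) (hHSB : HSB_stmt) (hHPT : HPT_stmt) (hHON : HON_stmt)
    (hSPN : SPN_stmt) (hCUT : CUT_stmt) : DFM_stmt := by
  intro ι κ _ _ _ _ c A B d hAB
  refine ⟨?_, ?_⟩
  · intro f hf x₀ l hg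
    obtain ⟨α, H, h1, h2, h3, h4, h5, h6, h7⟩ :=
      DFM_core hPLY hHSB hHPT hHON hSPN hCUT c A B d hAB f hf x₀ l hg
    refine ⟨α, H, h1, ?_, ?_, ?_, h7⟩
    · intro τ x v j
      cases τ with
      | true =>
        show PolyFun (fun t => gradL B (α t x) (v : MvPolynomial ι ℂ) j)
        simp only [gradL_apply]
        by_cases h : j ∈ B
        · simp only [h, if_true]
          exact h2 x _
        · simp only [h, if_false]
          exact PolyFun.const _
      | false =>
        show PolyFun (fun t => gradL A (cut A (α t x)) (v : MvPolynomial ι ℂ) j)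
        simp only [gradL_apply]
        by_cases h : j ∈ A
        · simp only [h, if_true]
          exact h3 x _
        · simp only [h, if_false]
          exact PolyFun.const _
    · intro x j
      exact h4 x j
    · intro τ x t h
      cases τ with
      | true => exact h5 x t h
      | false => exact h6 x t h
  · intro f hf x₀ l hg
    obtain ⟨α, H, h1, h2, h3, h4, h5, h6, h7⟩ :=
      DFM_core hPLY hHSB hHPT hHON hSPN hCUT c A A d (Finset.Subset.refl A) f hf x₀ l hg
    refine ⟨α, H, h1, ?_, ?_, ?_, h7⟩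
    · intro τ x v j
      cases τ with
      | true => exact PolyFun.const 0
      | false =>
        show PolyFun (fun t => gradL A (cut A (α t x)) (v : MvPolynomial ι ℂ) j)
        simp only [gradL_apply]
        by_cases h : j ∈ A
        · simp only [h, if_true]
          exact h3 x _
        · simp only [h, if_false]
          exact PolyFun.const _
    · intro x j
      exact h4 x j
    · intro τ x t h
      cases τ with
      | true => rfl
      | false => exact h6 x t h

end Pool.Agent.SV
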